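import Pool.Agent.ISB.StmtsB

/-!
# Squad ISB, block C: permutation groups

CONVENTIONS.  `G` acts on the finite set `Ω`, `P` is a normal 2-subgroup, `r` an odd prime.
`Rot r P κ ω`: the points `ω k` are permuted by `κ` (`κ • ω k = ω (k + 1)`, `ω (k + r) = ω k`), their
`P`-orbits cover `Ω`, and every element of `P` has a fixed point.

All rows: file `Pool/Agent/HelperNN_ISB/XXX.lean`, import `Pool.Agent.ISB.StmtsC`, namespace
`Pool.Agent.ISB.HNN`, `open scoped Classical commutatorElement`.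
-/

set_option autoImplicit false

namespace Pool.Agent.ISB

open scoped Classical commutatorElement

/-- `κ` permutes the points `ω k`, whose `P`-orbits cover `Ω`; every element of `P` has a fixed point -/
structure Rot {G Ω : Type} [Group G] [MulAction G Ω] (r : ℕ) (P : Subgroup G) (κ : G)
    (ω : ℕ → Ω) : Prop where
  nrm : P.Normal
  sh : ∀ k, κ • ω k = ω (k + 1)
  per : ∀ k, ω (k + r) = ω k
  cov : ∀ x : Ω, ∃ k < r, ∃ g ∈ P, x = g • ω k
  fix : ∀ g ∈ P, ∃ x : Ω, g • x = x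

/-- **Row CNT** (counting; medium). PROOF. Let `W` be the set of the `x⁻¹ * τ x` (a subgroup of the
commutative group `Q`). If `w = x⁻¹ * τ x` is fixed by `τ`, then `τ ^ i x = x * w ^ i`, so `w ^ r = 1`,
and `w = 1` (the order of `w` is a power of 2, `r` is odd). So in every subgroup `K` of `W` with
`τ K ⊆ K` the only fixed point of `τ` is `1`, and `|K| ≡ 1 (mod r)` (`τ ^ r = 1`, `r` prime:
`Equiv.Perm.card_fixedPoints_modEq` or `IsPGroup.card_modEq_card_fixedPoints`). Suppose that no `U k`, `k < r`, contains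
`W`. Then `|W : W ∩ U k|` is `≡ 1 (mod r)` and not 1, so it is at least `r + 1`:
`(r + 1) |W ∩ U k| ≤ |W|`. But `W` is the union of the `W ∩ U k`, `k < r`: `|W| ≤ ∑ k < r, |W ∩ U k| ≤
r |W| / (r + 1) < |W|`. -/
def CntStmt : Prop :=
  ∀ (Q : Type) [CommGroup Q] [Finite Q], IsPGroup 2 Q → ∀ r : ℕ, r.Prime → Odd r →
    ∀ (τ : Q →* Q) (U : ℕ → Subgroup Q), (∀ x, (τ^[r]) x = x) → (∀ x, ∃ k < r, x ∈ U k) →
    (∀ k, ∀ x ∈ U k, τ x ∈ U k) → ∃ k < r, ∀ x, x⁻¹ * τ x ∈ U k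

/-- **Row STA** (the layer, one tree; medium/strong, uses CNT). PROOF. `M = ⁅N, P⁆` is normal and contained
in `N`. `Q = N ⧸ M.subgroupOf N` is commutative (`⁅N, N⁆ ≤ M`) and a finite 2-group. `τ` = the homomorphism
of `Q` induced by `y ↦ t y t⁻¹` (`τ ^ r = 1`). `V k = {y ∈ N | ∃ m ∈ M, y • ω k = m • ω k}` is a subgroup
of `N` (`y m = (y m y⁻¹) y`) which contains `M`; `U k` = its image in `Q`. COVER: `y ∈ N` has a fixed point
`g • ω k`, `k < r`, `g ∈ P`: `g⁻¹ y g` fixes `ω k` and `y = ⁅y, g⁻¹⁆ (g⁻¹ y g)`, so `y • ω k = ⁅y, g⁻¹⁆ • ω k`.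
STABLE: `t y t⁻¹ • ω k = t y • ω k = t m • ω k = (t m t⁻¹) • ω k`. CNT gives `k < r` with
`y⁻¹ (t y t⁻¹) ∈ V k` for all `y ∈ N`. -/
def StaStmt : Prop :=
  ∀ (G Ω : Type) [Group G] [Finite G] [MulAction G Ω] (r : ℕ) (P : Subgroup G) (κ : G)
    (ω : ℕ → Ω), r.Prime → Odd r → IsPGroup 2 P → Rot r P κ ω → ∀ t : G, t ^ r = 1 →
    (∀ k, t • ω k = ω k) → ∀ N : Subgroup G, N.Normal → N ≤ P →
    ∃ k < r, ∀ y ∈ N, ∃ m ∈ ⁅N, P⁆, (y⁻¹ * (t * y * t⁻¹)) • ω k = m • ω k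

/-- **Row STB** (all trees; easy, uses STA). PROOF. Let `k₀` be as in STA, `k` arbitrary, `κ ^ j • ω k₀ = ω k`
with `j = k + r k₀ - k₀ ≥ 0` or similar (`κ ^ j • ω i = ω (i + j)`, `ω (i + m r) = ω i`). Apply STA to
`y' = κ ^ (-j) y κ ^ j` and multiply by `κ ^ j`: `κ ^ j (y'⁻¹ (t y' t⁻¹)) κ ^ (-j) = y⁻¹ (t y t⁻¹)` since `t`
commutes with `κ`; `⁅N, P⁆` is normal. -/
def StbStmt : Prop :=
  ∀ (G Ω : Type) [Group G] [Finite G] [MulAction G Ω] (r : ℕ) (P : Subgroup G) (κ : G)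
    (ω : ℕ → Ω), r.Prime → Odd r → IsPGroup 2 P → Rot r P κ ω → ∀ t : G, t ^ r = 1 →
    Commute t κ → (∀ k, t • ω k = ω k) → ∀ N : Subgroup G, N.Normal → N ≤ P →
    ∀ k, ∀ y ∈ N, ∃ m ∈ ⁅N, P⁆, (y⁻¹ * (t * y * t⁻¹)) • ω k = m • ω k

/-- **Row STC** (one layer down; medium, uses STB). PROOF. `M = ⁅N, P⁆`; write `u ~ v` for `∃ m ∈ M, u = m • v`
(an equivalence relation; `g • u ~ g • v` if `u ~ v`, `g ∈ G`). Let `x = g • ω k`, `g ∈ P`, `k < r`, and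
`t • x = m • x`, `m ∈ N`. (a) If `w ∈ N` and `w • ω k ~ ω k` then `w • x ~ x`: `w g = g (g⁻¹ w g)`,
`g⁻¹ w g = ⁅g⁻¹, w⁆ w`, so `w • x = g • ⁅g⁻¹, w⁆ w • ω k ~ g • ω k`. (b) `t ^ i • x ~ m ^ i • x` by induction:
`t ^ (i + 1) • x = t • (t ^ i • x) ~ t m ^ i • x = (t m ^ i t⁻¹) t • x = m ^ i w m • x` with
`w = m ^ (-i) (t m ^ i t⁻¹)`, and `w m • x = ⁅w, m⁆ m w • x ~ m w • x ~ m • x` by (a) and STB, so
`t ^ (i + 1) • x ~ m ^ i m • x`. (c) `i = r`: `x ~ m ^ r • x`. The set of the `y ∈ N` with `y • x ~ x` is a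
subgroup, it contains `m ^ r`, and `m` is a power of `m ^ r` (the order of `m` is a power of 2, `r` odd). So
`t • x = m • x ~ x`. -/
def StcStmt : Prop :=
  ∀ (G Ω : Type) [Group G] [Finite G] [MulAction G Ω] (r : ℕ) (P : Subgroup G) (κ : G)
    (ω : ℕ → Ω), r.Prime → Odd r → IsPGroup 2 P → Rot r P κ ω → ∀ t : G, t ^ r = 1 →
    Commute t κ → (∀ k, t • ω k = ω k) → ∀ N : Subgroup G, N.Normal → N ≤ P →
    (∀ x : Ω, ∃ m ∈ N, t • x = m • x) → ∀ x : Ω, ∃ m ∈ ⁅N, P⁆, t • x = m • x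

/-- **Row TRV** (`t` is trivial; easy, uses STC). PROOF. For `N = P`: `x = g • ω k`, `t • x = (t g t⁻¹ g⁻¹) • x`
and `t g t⁻¹ g⁻¹ ∈ P`. By induction on `i` and STC (`P.lowerCentralSeries (i + 1) = ⁅P.lowerCentralSeries i,
P⁆`, normal, contained in `P`) for all `x` there is `m ∈ P.lowerCentralSeries i` with `t • x = m • x`. `P` is
nilpotent (finite 2-group), so `P.lowerCentralSeries i = ⊥` for some `i`
(`Subgroup.isNilpotent_iff_lowerCentralSeries`). -/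
def TrvStmt : Prop :=
  ∀ (G Ω : Type) [Group G] [Finite G] [MulAction G Ω] (r : ℕ) (P : Subgroup G) (κ : G)
    (ω : ℕ → Ω), r.Prime → Odd r → IsPGroup 2 P → Rot r P κ ω → ∀ t : G, t ^ r = 1 →
    Commute t κ → (∀ k, t • ω k = ω k) → ∀ x : Ω, t • x = x

/-- **Row KOR** (`κ` has order `r`; easy, uses TRV). PROOF. If `κ ^ r ≠ 1` let `r ^ (e + 1)` be the order of
`κ ^ r` (a power of `r`), `t = (κ ^ r) ^ (r ^ e) ≠ 1`: `t ^ r = 1`, `t` commutes with `κ`, `t • ω k = ω k`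
because `κ ^ r • ω k = ω (k + r) = ω k`. By TRV `t` acts trivially, so `t = 1`: contradiction. -/
def KorStmt : Prop :=
  ∀ (G Ω : Type) [Group G] [Finite G] [MulAction G Ω] [FaithfulSMul G Ω] (r : ℕ)
    (P : Subgroup G) (κ : G) (ω : ℕ → Ω), r.Prime → Odd r → IsPGroup 2 P → Rot r P κ ω →
    ∀ m : ℕ, κ ^ (r ^ m) = 1 → κ ^ r = 1

/-- **Row ROA** (an element which permutes the orbits; medium). PROOF. `B = {g | g • α ∈ P-orbit of α}` is a
subgroup (`P` is normal); `|G : B| = r`, because `|G : Gα| = |Ω| = 2 ^ a r` (`Gα` the stabiliser, `G`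
transitive) and `|B : Gα|` is the number `2 ^ a` of points of the `P`-orbit (`B` acts transitively on it).
Let `R` be a Sylow `r`-subgroup of `G`. If `R ≤ B` then `|G : B|` divides `|G : R|`, which is not
divisible by `r`. So there is `κ ∈ R`, `κ ∉ B`; its order is `r ^ m`. The `j : ℤ` with `κ ^ j ∈ B` are the
multiples of some `d`, `d` divides `r ^ m`, `d ≠ 1`, so `r ≤ d`; the cosets `κ ^ k B`, `k < d`, are different and
there are only `r` cosets: `d = r` and every `g ∈ G` is in some `κ ^ k B`, `k < r`. So every point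
`g • α = κ ^ k b • α`, `b ∈ B`, is in the `P`-orbit of `κ ^ k • α` (`κ ^ k p • α = (κ ^ k p κ ^ (-k)) κ ^ k • α`),
and `κ ^ r ∈ B`. -/
def RoaStmt : Prop :=
  ∀ (G Ω : Type) [Group G] [Finite G] [MulAction G Ω] [Finite Ω] (r a : ℕ) (P : Subgroup G)
    (α : Ω), r.Prime → P.Normal → (∀ x y : Ω, ∃ g : G, g • x = y) → Nat.card Ω = 2 ^ a * r →
    Nat.card (MulAction.orbit P α) = 2 ^ a →
    ∃ κ : G, (∃ m : ℕ, κ ^ (r ^ m) = 1) ∧ (∃ p ∈ P, κ ^ r • α = p • α) ∧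
      ∀ x : Ω, ∃ k < r, ∃ g ∈ P, x = g • κ ^ k • α

/-- **Row ROB** (the points; medium, uses ROA). PROOF. `κ` from ROA. `τ = κ ^ r` maps the `P`-orbit `Δ` of
`α` to itself (`τ p • α = (τ p τ⁻¹) τ • α`), `|Δ| = 2 ^ a` is not divisible by `r`, and the group generated by
`τ` is an `r`-group, so `τ` fixes a point `ω₀ = p • α` of `Δ` (`IsPGroup.nonempty_fixed_point_of_prime_not_dvd_card`).
Put `ω k = κ ^ k • ω₀`; `ω (k + r) = κ ^ k τ • ω₀ = ω k`; `x = g κ ^ k • α = g κ ^ k p⁻¹ • ω₀ =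
(g κ ^ k p⁻¹ κ ^ (-k)) • ω k`. -/
def RobStmt : Prop :=
  ∀ (G Ω : Type) [Group G] [Finite G] [MulAction G Ω] [Finite Ω] (r a : ℕ) (P : Subgroup G)
    (α : Ω), r.Prime → Odd r → P.Normal → (∀ x y : Ω, ∃ g : G, g • x = y) →
    Nat.card Ω = 2 ^ a * r → Nat.card (MulAction.orbit P α) = 2 ^ a →
    (∀ g ∈ P, ∃ x : Ω, g • x = x) →
    ∃ (κ : G) (ω : ℕ → Ω), Rot r P κ ω ∧ ∃ m : ℕ, κ ^ (r ^ m) = 1

/-- **Row CLB** (class of `P`; medium, uses GRP, KOR, ROB). PROOF. `c` = the number of GRP for `r`, `n`. Let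
`κ`, `ω` be as in ROB, `κ ^ r = 1` by KOR. Conjugation with `κ` is an automorphism `k` of `P`
(`MulAut.conjNormal κ`) with `k ^ r = 1`. `S` = the stabiliser of `ω 0` in `P`: by hypothesis (all stabilisers
in `P` of points are conjugate in `G`) its class is at most `n`. If `x ∈ P` fixes `g • ω k`, `g ∈ P`, then
`g⁻¹ x g` fixes `ω k = κ ^ k • ω 0`, so `g⁻¹ x g = κ ^ k y κ ^ (-k)`, `y ∈ S`. GRP for the group `P`. The
conclusion `(⊤ : Subgroup P).lowerCentralSeries c = ⊥` is moved to `G` by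
`Subgroup.top_subtype_lowerCentralSeries`. -/
def ClbStmt : Prop :=
  ∀ r n : ℕ, r.Prime → Odd r → ∃ c : ℕ, ∀ (G Ω : Type) [Group G] [Finite G] [MulAction G Ω]
    [FaithfulSMul G Ω] [Finite Ω] (a : ℕ) (P : Subgroup G), IsPGroup 2 P → P.Normal →
    (∀ x y : Ω, ∃ g : G, g • x = y) → Nat.card Ω = 2 ^ a * r →
    (∀ x : Ω, Nat.card (MulAction.orbit P x) = 2 ^ a) →
    (∀ x : Ω, (MulAction.stabilizer G x ⊓ P).lowerCentralSeries n = ⊥) →
    (∀ g ∈ P, ∃ x : Ω, g • x = x) → P.lowerCentralSeries c = ⊥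

/-- **Row FPF** (nilpotent groups; easy, uses nothing; import `Pool.Agent.Helper41_Isbell.Nilp`). PROOF.
`Pool.Agent.Helper41.Isbell.exists_fpf_of_central_chain` for the group `P` acting on `Ω` with
`Z j = (⊤ : Subgroup P).lowerCentralSeries (c - j)`, `k = r` (the number of the orbits is
`|Ω| / 2 ^ a = r`: sum over the orbits), `m = 2 ^ a`. -/
def FpfStmt : Prop :=
  ∀ (G Ω : Type) [Group G] [Finite G] [MulAction G Ω] [Finite Ω] (r a c : ℕ) (P : Subgroup G),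
    0 < r → Nat.card Ω = 2 ^ a * r → (∀ x : Ω, Nat.card (MulAction.orbit P x) = 2 ^ a) →
    P.lowerCentralSeries c = ⊥ → r ^ (2 ^ c - 1) < 2 ^ a → ∃ g ∈ P, ∀ x : Ω, g • x ≠ x

/-- **Row SYL** (orbits of a normal Sylow 2-subgroup; easy). PROOF. `P` is normal, so all its orbits have
the same number `s` of elements, `s` is a power of 2 (it divides `|P|`) and divides `|Ω| = 2 ^ a r`, so `s ≤
2 ^ a`. `|P : P_x| = s`; the stabiliser `G_x` has index `2 ^ a r` in `G`, so `2 ^ a` divides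
`|G : P_x| = |G : P| |P : P_x|`, and `|G : P|` is odd: `2 ^ a` divides `s`. -/
def SylStmt : Prop :=
  ∀ (G Ω : Type) [Group G] [Finite G] [MulAction G Ω] [Finite Ω] (r a : ℕ) (P : Sylow 2 G),
    Odd r → (P : Subgroup G).Normal → (∀ x y : Ω, ∃ g : G, g • x = y) →
    Nat.card Ω = 2 ^ a * r → ∀ x : Ω, Nat.card (MulAction.orbit (P : Subgroup G) x) = 2 ^ a

/-- **Row FIN** (the theorem; easy, uses CLB, FPF). PROOF. `c` from CLB, `A` with `r ^ (2 ^ c - 1) < 2 ^ A`. If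
every element of `P` has a fixed point then `P.lowerCentralSeries c = ⊥` (CLB; the stabilisers of all points
are conjugate in `G`, `P` is normal), and FPF gives a contradiction. -/
def FinStmt : Prop :=
  ∀ r n : ℕ, r.Prime → Odd r → ∃ A : ℕ, ∀ a, A ≤ a → ∀ (G Ω : Type) [Group G] [Finite G]
    [MulAction G Ω] [FaithfulSMul G Ω] [Finite Ω] (P : Subgroup G), IsPGroup 2 P → P.Normal →
    (∀ x y : Ω, ∃ g : G, g • x = y) → Nat.card Ω = 2 ^ a * r →
    (∀ x : Ω, Nat.card (MulAction.orbit P x) = 2 ^ a) →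
    (∃ x : Ω, (MulAction.stabilizer G x ⊓ P).lowerCentralSeries n = ⊥) →
    ∃ g ∈ P, ∀ x : Ω, g • x ≠ x

end Pool.Agent.ISB
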