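import Mathlib

/-!
# Squad ISB: Isbell's conjecture for groups with a normal 2-subgroup with `r` orbits and stabilisers of
# bounded class (MP_4f548a_al), definitions

Part 1: calculus of submodules of a Lie algebra.  Part 2: the action of the graded Lie ring of a
group on its dual.
-/

set_option autoImplicit false

namespace Pool.Agent.ISB

open scoped Classical commutatorElement

section Lie

variable {F L : Type} [Field F] [LieRing L] [LieAlgebra F L]

/-- the span of the brackets `⁅a, b⁆`, `a ∈ A`, `b ∈ B` -/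
def br (A B : Submodule F L) : Submodule F L :=
  Submodule.span F {z | ∃ a ∈ A, ∃ b ∈ B, z = ⁅a, b⁆}

/-- the derived series of `A` -/
def dr (A : Submodule F L) : ℕ → Submodule F L
  | 0 => A
  | s + 1 => br (dr A s) (dr A s)

/-- `[..[A, B], .., B]`, `p` times `B` -/
def itr (A B : Submodule F L) : ℕ → Submodule F L
  | 0 => A
  | p + 1 => br (itr A B p) B

/-- the left normed bracket `[..[u, c₁], .., c_p]` of a list -/
def ln (u : L) (cs : List L) : L := cs.foldl (fun a c => ⁅a, c⁆) u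

/-- the eigenspace of `σ` for `ζ ^ k` -/
def W (σ : L →ₗ[F] L) (ζ : F) (k : ℕ) : Submodule F L where
  carrier := {a | σ a = ζ ^ k • a}
  add_mem' := fun {a b} ha hb => by
    show σ (a + b) = ζ ^ k • (a + b)
    rw [map_add, smul_add, show σ a = ζ ^ k • a from ha, show σ b = ζ ^ k • b from hb]
  zero_mem' := by
    show σ 0 = ζ ^ k • (0 : L)
    rw [map_zero, smul_zero]
  smul_mem' := fun c a ha => by
    show σ (c • a) = ζ ^ k • (c • a)
    rw [map_smul, show σ a = ζ ^ k • a from ha, smul_comm]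

/-- the subspace generated (by brackets) by the components `k ≤ χ < r` of `D` -/
def gen (σ : L →ₗ[F] L) (ζ : F) (r : ℕ) (D : Submodule F L) (k : ℕ) : Submodule F L :=
  (LieSubalgebra.lieSpan F L {z | ∃ χ, k ≤ χ ∧ χ < r ∧ z ∈ D ⊓ W σ ζ χ}).toSubmodule

/-- `σ` is an automorphism of order dividing `r` of the Lie algebra `L`, `ζ` a primitive `r`-th root
of unity -/
structure Aut (r : ℕ) (σ : L →ₗ[F] L) (ζ : F) : Prop where
  pos : 0 < r
  prim : IsPrimitiveRoot ζ r
  ne : (r : F) ≠ 0
  lie : ∀ a b, σ ⁅a, b⁆ = ⁅σ a, σ b⁆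
  pow : ∀ a, (σ ^ r) a = a

/-- `A` is closed under brackets and stable under `σ` -/
structure Stb (σ : L →ₗ[F] L) (A : Submodule F L) : Prop where
  cl : ∀ a ∈ A, ∀ b ∈ A, ⁅a, b⁆ ∈ A
  st : ∀ a ∈ A, σ a ∈ A

/-- `R` is a set (of homogeneous elements of a form of the Lie algebra) which is closed under brackets
and covered by the `r` trees `H k`; the trees are permuted by `σ` and are nilpotent of class at
most `n` -/
structure Cov (r n : ℕ) (σ : L →ₗ[F] L) (R : Set L) (H : ℕ → Set L) : Prop where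
  brk : ∀ x ∈ R, ∀ y ∈ R, ⁅x, y⁆ ∈ R
  stb : ∀ x ∈ R, σ x ∈ R
  cov : ∀ x ∈ R, ∃ k < r, x ∈ H k
  shf : ∀ k, ∀ x ∈ H k, σ x ∈ H (k + 1)
  per : ∀ k, H (k + r) = H k
  nil : ∀ k, ∀ y ∈ H k, ∀ cs : List L, cs.length = n → (∀ c ∈ cs, c ∈ H k) → ln y cs = 0
  fix : ∀ z ∈ Submodule.span F R, σ z = z → z ∈ Submodule.span F {c | c ∈ R ∧ σ c = c}

end Lie

/-- the index of the Kreknin induction -/
def fk (n : ℕ) : ℕ → ℕ → ℕ
  | 0, s => s
  | k + 1, s => fk n k ((fun u => fk n k u + 1)^[n] s)

/-- the length of the products in the metabelian step -/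
def a0 (r n : ℕ) : ℕ := n + r * r + r * n

/-- the bound of Hall's theorem -/
def hb (a : ℕ) : ℕ → ℕ
  | 0 => 0
  | s + 1 => 1 + ∑ j ∈ Finset.range (hb a s), (j + 1) * a

/-! ## 2. Groups -/

section Grp

variable (P : Type) [Group P]

/-- the lower central series, `gm P 0 = P` -/
def gm (j : ℕ) : Subgroup P := (⊤ : Subgroup P).lowerCentralSeries j

variable (F : Type) [Field F]

/-- the dual of the graded Lie ring: `f j` is a homomorphism from `gm P j` to `F` which is `0` on
`gm P (j + 1)` (and `0` outside of `gm P j`) -/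
def Dl : Submodule F (ℕ → P → F) where
  carrier := {f | ∀ j, (∀ x ∈ gm P j, ∀ y ∈ gm P j, f j (x * y) = f j x + f j y) ∧
    (∀ x ∈ gm P (j + 1), f j x = 0) ∧ ∀ x, x ∉ gm P j → f j x = 0}
  add_mem' := fun {f g} hf hg j => by
    refine ⟨fun x hx y hy => ?_, fun x hx => ?_, fun x hx => ?_⟩
    · show f j (x * y) + g j (x * y) = f j x + g j x + (f j y + g j y)
      rw [(hf j).1 x hx y hy, (hg j).1 x hx y hy]
      ring
    · show f j x + g j x = 0
      rw [(hf j).2.1 x hx, (hg j).2.1 x hx, add_zero]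
    · show f j x + g j x = 0
      rw [(hf j).2.2 x hx, (hg j).2.2 x hx, add_zero]
  zero_mem' := fun j => ⟨fun _ _ _ _ => by simp, fun _ _ => rfl, fun _ _ => rfl⟩
  smul_mem' := fun c f hf j => by
    refine ⟨fun x hx y hy => ?_, fun x hx => ?_, fun x hx => ?_⟩
    · show c * f j (x * y) = c * f j x + c * f j y
      rw [(hf j).1 x hx y hy]
      ring
    · show c * f j x = 0
      rw [(hf j).2.1 x hx, mul_zero]
    · show c * f j x = 0
      rw [(hf j).2.2 x hx, mul_zero]

/-- the operator of the element `x ∈ gm P a` on functions: `(D x f) j g = f (j + a + 1) ⁅x, g⁆` -/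
noncomputable def Dop (a : ℕ) (x : P) : (ℕ → P → F) →ₗ[F] (ℕ → P → F) where
  toFun f := fun j g => if g ∈ gm P j then f (j + a + 1) ⁅x, g⁆ else 0
  map_add' f g := by
    funext j y
    by_cases h : y ∈ gm P j <;> simp [h]
  map_smul' c f := by
    funext j y
    by_cases h : y ∈ gm P j <;> simp [h]

/-- `T` is the operator of an element `x ∈ gm P a` on the dual -/
def IsD (a : ℕ) (x : P) (T : Module.End F (Dl P F)) : Prop :=
  x ∈ gm P a ∧ ∀ f : Dl P F, ((T f : Dl P F) : ℕ → P → F) = Dop P F a x f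

/-- the operators of all elements -/
def Rs : Set (Module.End F (Dl P F)) := {T | ∃ a x, IsD P F a x T}

/-- the operators of the elements of the subgroup `S` -/
def Hs (S : Subgroup P) : Set (Module.End F (Dl P F)) := {T | ∃ a, ∃ x ∈ S, IsD P F a x T}

/-- conjugation with the automorphism of the dual which is induced by `κ`: `U = sg T` means
`U (κ f) = κ (T f)`, where `(κ f) j g = f j (κ⁻¹ g)` -/
def IsK (κ : P ≃* P) (s : Dl P F ≃ₗ[F] Dl P F) : Prop :=
  ∀ (f : Dl P F) (j : ℕ) (g : P), ((s f : Dl P F) : ℕ → P → F) j g = (f : ℕ → P → F) j (κ.symm g)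

/-- conjugation of operators by `s` -/
def cj (s : Dl P F ≃ₗ[F] Dl P F) : Module.End F (Dl P F) →ₗ[F] Module.End F (Dl P F) where
  toFun T := s.toLinearMap ∘ₗ T ∘ₗ s.symm.toLinearMap
  map_add' T U := by
    ext f; simp
  map_smul' c T := by
    ext f; simp

end Grp

end Pool.Agent.ISB
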