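import Pool.Agent.ISB.Defs

/-!
# Squad ISB, block A: the theorem on Lie algebras

CONVENTIONS.  `L` is a Lie algebra over the field `F`; `br A B` is the span of the brackets, `dr A s` the
derived series of `A`, `itr A B p = [..[A, B], .., B]`.  THEOREM (row LIE): let `σ` be an automorphism
of `L` with `σ ^ r = 1`, `r` prime, `R` a set of elements which is closed under brackets and covered
by `r` sets (`trees`) which are permuted by `σ` and are nilpotent of class at most `n`.  Then the span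
of `R` is nilpotent of `(r, n)`-bounded class.  Steps: Kreknin's theorem with `[A, C, .., C] = 0`
(`C` = fixed points) in place of `C = 0` (rows GEN KRB KRC KRK), the metabelian sections (rows NLX NLA
NLB), Hall's theorem (rows HLS HAL).

All rows: file `Pool/Agent/HelperNN_ISB/XXX.lean`, import `Pool.Agent.ISB.StmtsA`, namespace
`Pool.Agent.ISB.HNN`, theorem `xxx (hypotheses = the statements of the column uses, in this order)
: XxxStmt`.
-/

set_option autoImplicit false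

namespace Pool.Agent.ISB

open scoped Classical

/-! ## 1. Calculus -/

/-- **Row CAL** (calculus; easy). PROOF. Everything by `Submodule.span_le`, `Submodule.span_induction`
and the Jacobi identity `⁅a, ⁅b, c⁆⁆ = ⁅⁅a, b⁆, c⁆ + ⁅b, ⁅a, c⁆⁆` (`leibniz_lie`), `⁅b, ⁅a, c⁆⁆ =
- ⁅⁅a, c⁆, b⁆` (`lie_skew`). The last but one by induction on `q`. -/
def CalStmt : Prop :=
  ∀ (F L : Type) [Field F] [LieRing L] [LieAlgebra F L],
    (∀ A B C D : Submodule F L, A ≤ C → B ≤ D → br A B ≤ br C D) ∧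
    (∀ A B : Submodule F L, br A B = br B A) ∧
    (∀ A B C : Submodule F L, br (A ⊔ B) C = br A C ⊔ br B C) ∧
    (∀ A B C : Submodule F L, br A (br B C) ≤ br (br A B) C ⊔ br (br A C) B) ∧
    (∀ X Y : Set L, br (Submodule.span F X) (Submodule.span F Y) =
      Submodule.span F {z | ∃ x ∈ X, ∃ y ∈ Y, z = ⁅x, y⁆}) ∧
    (∀ A : Submodule F L, br ⊥ A = ⊥) ∧
    (∀ (A B : Submodule F L) (p q : ℕ), itr (itr A B p) B q = itr A B (p + q)) ∧
    ∀ (A A' B B' : Submodule F L) (p : ℕ), A ≤ A' → B ≤ B' → itr A B p ≤ itr A' B' p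

/-- **Row IDL** (the derived series consists of ideals; easy, uses CAL). PROOF. (1) `br A A ≤ A`; (2)
induction on `s`: `br (br D D) A ≤ br (br D A) D ≤ br D D` (CAL: commutativity and Jacobi), `D = dr A s`;
(1) follows for all `s`. (3) induction on `j`: with `X = itr D D j`, `br (br X D) A ≤ br (br X A) D ⊔
br (br D A) X ≤ br X D`. (4) by induction, `σ` maps `br D D` to itself. -/
def IdlStmt : Prop :=
  ∀ (F L : Type) [Field F] [LieRing L] [LieAlgebra F L] (A : Submodule F L),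
    (∀ a ∈ A, ∀ b ∈ A, ⁅a, b⁆ ∈ A) →
    (∀ s s', s ≤ s' → dr A s' ≤ dr A s) ∧ (∀ s, br (dr A s) A ≤ dr A s) ∧
    (∀ s j, br (itr (dr A s) (dr A s) j) A ≤ itr (dr A s) (dr A s) j) ∧
    ∀ σ : L →ₗ[F] L, (∀ a b, σ ⁅a, b⁆ = ⁅σ a, σ b⁆) → (∀ a ∈ A, σ a ∈ A) →
      ∀ s, ∀ a ∈ dr A s, σ a ∈ dr A s

/-- **Row EIG** (eigenspaces; medium). PROOF. (1) `ζ ^ r = 1`. (2) `σ ⁅a, b⁆ = ⁅σ a, σ b⁆`. Put
`π k a = r⁻¹ • ∑ i ∈ range r, (ζ ^ (k i))⁻¹ • (σ ^ i) a`. (4) on `W j` it is multiplication by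
`r⁻¹ ∑ i, (ζ ^ j / ζ ^ k) ^ i`, which is `1` if `j ≡ k` and `0` otherwise (geometric sum of
`x = ζ ^ j / ζ ^ k`, `x ^ r = 1`, `x ≠ 1` because `ζ` is primitive). (3) take `c k = π k a`: it is in
`A` (`A` is stable under `σ`), `σ (π k a) = ζ ^ k • π k a` (shift of the summation index, `σ ^ r = 1`),
and `∑ k, π k a = a` since `∑ k ∈ range r, (ζ ^ (k i))⁻¹` is `r` for `i = 0` and `0` for `0 < i < r`. -/
def EigStmt : Prop :=
  ∀ (F L : Type) [Field F] [LieRing L] [LieAlgebra F L] (r : ℕ) (σ : L →ₗ[F] L) (ζ : F),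
    Aut r σ ζ →
    (∀ k, W σ ζ (k + r) = W σ ζ k) ∧
    (∀ i j, ∀ a ∈ W σ ζ i, ∀ b ∈ W σ ζ j, ⁅a, b⁆ ∈ W σ ζ (i + j)) ∧
    (∀ A : Submodule F L, (∀ a ∈ A, σ a ∈ A) → ∀ a ∈ A, ∃ c : ℕ → L,
      (∀ k, c k ∈ A ⊓ W σ ζ k) ∧ a = ∑ k ∈ Finset.range r, c k) ∧
    ∀ k, ∃ π : L →ₗ[F] L, (∀ a ∈ W σ ζ k, π a = a) ∧
      (∀ j, j % r = k % r → ∀ a ∈ W σ ζ j, π a = a) ∧
      ∀ j, j % r ≠ k % r → ∀ a ∈ W σ ζ j, π a = 0

/-! ## 2. Kreknin's theorem -/

/-- **Row GEN** (the generated subspaces; medium, uses CAL, EIG). PROOF. `D` is an ideal: `br D D ≤ D`,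
so (1) `gen D k ≤ D` (`LieSubalgebra.lieSpan` is contained in every subalgebra which contains the
generators). (2) EIG (3). (3) no generators. (4) the generators of `gen D k` are in `gen D' (k + 1)`
(which is closed under brackets). (5) `LieSubalgebra.lieSpan_induction` for `a ∈ gen D k`, for all
`b ∈ D`: `⁅b, a⁆` is in the right side; generators: clear; bracket: `⁅b, ⁅a₁, a₂⁆⁆ = ⁅⁅b, a₁⁆, a₂⁆ -
⁅⁅b, a₂⁆, a₁⁆` with `⁅b, a₁⁆, ⁅b, a₂⁆ ∈ D` (by (1)). (6) induction again: a generator `a ∈ D ⊓ W χ`,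
`w ∈ A ⊓ W 0`: `⁅w, a⁆ ∈ D ⊓ W χ`; bracket: Jacobi. -/
def GenStmt : Prop :=
  ∀ (F L : Type) [Field F] [LieRing L] [LieAlgebra F L] (r : ℕ) (σ : L →ₗ[F] L) (ζ : F),
    Aut r σ ζ → ∀ A D : Submodule F L, D ≤ A → br D A ≤ D → (∀ a ∈ D, σ a ∈ D) →
    (∀ k, gen σ ζ r D k ≤ D) ∧ (D ≤ gen σ ζ r D 0) ∧ (gen σ ζ r D r = ⊥) ∧
    (∀ (D' : Submodule F L) (k : ℕ), D ≤ D' → D ⊓ W σ ζ k ≤ gen σ ζ r D' (k + 1) →
      gen σ ζ r D k ≤ gen σ ζ r D' (k + 1)) ∧
    (∀ k, br D (gen σ ζ r D k) ≤ ⨆ χ ∈ Finset.Ico k r, br D (D ⊓ W σ ζ χ)) ∧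
    (∀ k, br (A ⊓ W σ ζ 0) (gen σ ζ r D k) ≤ gen σ ζ r D k) ∧
    ∀ k, ∀ a ∈ gen σ ζ r D k, ∀ b ∈ gen σ ζ r D k, ⁅a, b⁆ ∈ gen σ ζ r D k

/-- **Row KRB** (components of weight `k`; medium, uses CAL, IDL, EIG, GEN). PROOF. `D = dr A s'` is an
ideal of `A`, `σ`-stable (IDL), `dr A u ≤ gen D k ≤ D`. So `dr A (u + 1) = br (dr A u) (dr A u) ≤
br D (gen D k) ≤ ⨆ χ, k ≤ χ < r, br D (D ⊓ W χ)` (GEN (5)) and `br D (D ⊓ W χ) ≤ ⨆ j < r,
br (D ⊓ W j) (D ⊓ W χ)` (EIG (3)). Let `z` be in the left side, `π` as in EIG (4): `z = π z`, and `π` maps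
`br (D ⊓ W j) (D ⊓ W χ)` to itself if `j + χ ≡ k` and to `0` otherwise (EIG (2)). So `z` is a sum of
elements of `br (D ⊓ W j) (D ⊓ W χ)`, `k ≤ χ < r`, `j < r`, `j + χ ≡ k (mod r)`. If `χ = k` then `j = 0`: it is
in `br (A ⊓ W 0) (D ⊓ W k)`. If `χ > k` then `j = k - χ + r > k`: both factors are in
`gen (dr A s) (k + 1)` (`D ≤ dr A s`), and so is the bracket. -/
def KrbStmt : Prop :=
  ∀ (F L : Type) [Field F] [LieRing L] [LieAlgebra F L] (r : ℕ) (σ : L →ₗ[F] L) (ζ : F),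
    Aut r σ ζ → ∀ A : Submodule F L, Stb σ A → ∀ k < r, ∀ s s' u, s ≤ s' →
    dr A u ≤ gen σ ζ r (dr A s') k →
    dr A (u + 1) ⊓ W σ ζ k ≤
      gen σ ζ r (dr A s) (k + 1) ⊔ br (A ⊓ W σ ζ 0) (dr A s' ⊓ W σ ζ k)

/-- **Row KRC** (the step; medium, uses CAL, IDL, GEN, KRB). PROOF. `φ u = fk n k u + 1`, `s_j = φ^[j] s`
(`Function.iterate_succ_apply'`); `u ≤ fk n k u` (induction on `k`, or from nothing: all we need is
`dr A (s_(j+1)) ≤ dr A (s_j)`, which follows from `dr A (fk n k u) ≤ gen (dr A u) k ≤ dr A u`; to have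
`s ≤ s_j` prove `u ≤ fk n k u` by induction on `k`). Claim: for `j ≤ n`
`dr A (s_j) ⊓ W k ≤ gen (dr A s) (k + 1) ⊔ itr (dr A s ⊓ W k) (A ⊓ W 0) j`. `j = 0` is clear. Step:
KRB with `s' = s_j`, `u = fk n k s_j` gives `dr A (s_(j+1)) ⊓ W k ≤ gen ⊔ br (A ⊓ W 0) (dr A s_j ⊓ W k)`;
insert the claim; `br (A ⊓ W 0) (gen (dr A s) (k+1)) ≤ gen (dr A s) (k+1)` (GEN (6)). For `j = n` the
second summand is `⊥` by (H). So `dr A (s_n) ⊓ W k ≤ gen (dr A s) (k + 1)`, and by GEN (4)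
`gen (dr A s_n) k ≤ gen (dr A s) (k + 1)`. Finally `fk n (k + 1) s = fk n k s_n`. -/
def KrcStmt : Prop :=
  ∀ (F L : Type) [Field F] [LieRing L] [LieAlgebra F L] (r n : ℕ) (σ : L →ₗ[F] L) (ζ : F),
    Aut r σ ζ → ∀ A : Submodule F L, Stb σ A → itr A (A ⊓ W σ ζ 0) n = ⊥ → ∀ k < r,
    (∀ s, dr A (fk n k s) ≤ gen σ ζ r (dr A s) k) →
    ∀ s, dr A (fk n (k + 1) s) ≤ gen σ ζ r (dr A s) (k + 1)

/-- **Row KRK** (Kreknin's theorem with nilpotent action of the fixed points; easy, uses IDL, GEN, KRC).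
PROOF. `dr A (fk n k s) ≤ gen (dr A s) k` for all `k ≤ r` and all `s`, by induction on `k` (`k = 0`: GEN (2));
for `k = r` the right side is `⊥` (GEN (3)). -/
def KrkStmt : Prop :=
  ∀ (F L : Type) [Field F] [LieRing L] [LieAlgebra F L] (r n : ℕ) (σ : L →ₗ[F] L) (ζ : F),
    Aut r σ ζ → ∀ A : Submodule F L, Stb σ A → itr A (A ⊓ W σ ζ 0) n = ⊥ →
    dr A (fk n r 0) = ⊥

/-! ## 3. Metabelian sections -/

/-- **Row MLT** (multilinearity of left normed brackets; easy). PROOF. `ln u (cs ++ [c]) = ⁅ln u cs, c⁆`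
(`List.foldl_append`). (1) induction on `p` with `br (span X) (span Y) = span` of the brackets; a
list of length `p + 1` is `cs ++ [c]` (`List.eq_nil_or_concat`). (2) `List.reverseRecOn` for `cs`.
(3), (4) induction on `cs`. -/
def MltStmt : Prop :=
  ∀ (F L : Type) [Field F] [LieRing L] [LieAlgebra F L],
    (∀ (X Y : Set L) (p : ℕ), itr (Submodule.span F X) (Submodule.span F Y) p =
      Submodule.span F {z | ∃ u ∈ X, ∃ cs : List L, cs.length = p ∧ (∀ c ∈ cs, c ∈ Y) ∧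
        z = ln u cs}) ∧
    (∀ (Y : Set L) (u : L) (cs : List L), (∀ c ∈ cs, c ∈ Submodule.span F Y) →
      ln u cs ∈ Submodule.span F {z | ∃ ys : List L, ys.length = cs.length ∧ (∀ y ∈ ys, y ∈ Y) ∧
        z = ln u ys}) ∧
    (∀ (u u' : L) (cs : List L), ln (u + u') cs = ln u cs + ln u' cs) ∧
    ∀ (c : F) (u : L) (cs : List L), ln (c • u) cs = c • ln u cs

/-- **Row SPN** (the derived series is spanned by elements of `R`; easy, uses CAL). PROOF. Induction on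
`s`: `dr (s + 1) = br (span X) (span X)`, `X = R ∩ dr s`, is the span of the `⁅x, y⁆`, `x, y ∈ X` (CAL (5)),
and these are in `R ∩ dr (s + 1)`. -/
def SpnStmt : Prop :=
  ∀ (F L : Type) [Field F] [LieRing L] [LieAlgebra F L] (R : Set L),
    (∀ x ∈ R, ∀ y ∈ R, ⁅x, y⁆ ∈ R) → ∀ s, dr (Submodule.span F R) s =
      Submodule.span F {x | x ∈ R ∧ x ∈ dr (Submodule.span F R) s}

/-- **Row COM** (the operators of `dr A t` commute on `dr A (t+1) / dr A (t+2)`; easy, uses IDL, MLT).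
PROOF. (1), (3): `dr A (t + 1)`, `dr A (t + 2)` are ideals of `A` (IDL), induction on `cs`. (2)
`List.Perm.rec` for all `u`; the step `swap x y l`: `ln u (x :: y :: l) - ln u (y :: x :: l) =
ln (⁅⁅u, x⁆, y⁆ - ⁅⁅u, y⁆, x⁆) l = ln ⁅u, ⁅x, y⁆⁆ l` (MLT (3)) and `⁅u, ⁅x, y⁆⁆` is a bracket of two elements of
`dr A (t + 1)`; then (3). -/
def ComStmt : Prop :=
  ∀ (F L : Type) [Field F] [LieRing L] [LieAlgebra F L] (A : Submodule F L),
    (∀ a ∈ A, ∀ b ∈ A, ⁅a, b⁆ ∈ A) → ∀ (t : ℕ) (cs : List L), (∀ c ∈ cs, c ∈ dr A t) →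
    (∀ u ∈ dr A (t + 1), ln u cs ∈ dr A (t + 1)) ∧
    (∀ u ∈ dr A (t + 1), ∀ cs' : List L, cs.Perm cs' → ln u cs - ln u cs' ∈ dr A (t + 2)) ∧
    ∀ z ∈ dr A (t + 2), ln z cs ∈ dr A (t + 2)

/-- **Row PGH** (pigeonhole for lists; easy). PROOF. Otherwise every `l.filter (f = k)` has at most `m`
elements, and `l.length = ∑ k < r, (l.filter (f = k)).length ≤ r m` (induction on `l`, or
`Finset.exists_lt_of_sum_lt`). Given `k` with at least `m + 1` elements take `l1` = the first `m + 1` elements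
of the filter, `l2` = the rest of it and the elements with `f ≠ k` (`List.filter_append_perm`,
`List.take_append_drop`). -/
def PghStmt : Prop :=
  ∀ (α : Type) (r m : ℕ) (f : α → ℕ) (l : List α), (∀ a ∈ l, f a < r) → r * m < l.length →
    ∃ k < r, ∃ l1 l2 : List α, l.Perm (l1 ++ l2) ∧ l1.length = m + 1 ∧ ∀ a ∈ l1, f a = k

/-- **Row EON** (the two identities; medium, uses CAL, EIG, MLT). PROOF. `W 0` is the set of fixed points
(`ζ ^ 0 = 1`). (1) the span is closed under brackets and `σ`. A fixed point `c ∈ R` of `σ` is in some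
`H k₀`, hence in `H (k₀ + j)` for all `j` (`shf`), hence in all `H k` (`per`: `H (k + m r) = H k`). `span R ⊓
W 0` is contained in the span of the set `C` of these `c` (`fix`). (2) by MLT (1) and monotonicity
the left side is contained in the span of the `ln y cs`, `y ∈ R`, `cs` of length `n` in `C`; `y ∈ H k` for
some `k`, `C ⊆ H k`, so `ln y cs = 0` (`nil`). (3) `u` is a linear combination of elements of `C`, MLT
(3), (4), and `ln c ys = 0` for `c ∈ C` by `nil`. -/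
def EonStmt : Prop :=
  ∀ (F L : Type) [Field F] [LieRing L] [LieAlgebra F L] (r n : ℕ) (σ : L →ₗ[F] L) (ζ : F)
    (R : Set L) (H : ℕ → Set L), Aut r σ ζ → Cov (F := F) r n σ R H →
    Stb σ (Submodule.span F R) ∧
    itr (Submodule.span F R) (Submodule.span F R ⊓ W σ ζ 0) n = ⊥ ∧
    ∀ k, ∀ u ∈ Submodule.span F R ⊓ W σ ζ 0, ∀ ys : List L, ys.length = n →
      (∀ y ∈ ys, y ∈ H k) → ln u ys = 0

/-- **Row NLX** (fixed points `u`; medium, uses IDL, MLT, SPN, COM, PGH, EON). PROOF. `A = span R`.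
`dr A t` is the span of `Y = R ∩ dr A t` (SPN), so by MLT (2) it suffices to show `ln u ys ∈ dr A (t + 2)`
for lists `ys` in `Y` with `r n < ys.length`. Every `y ∈ ys` is in some `H (f y)`, `f y < r` (`cov`). PGH
with `m = n`: `ys` is a permutation of `l1 ++ l2`, `l1` of length `n + 1` in one `H k`. COM (2): modulo
`dr A (t + 2)` `ln u ys` is `ln u (l1 ++ l2)`, and this is `0`, because `ln u (l1.take n) = 0` by EON (3)
(`u ∈ A ⊓ W 0`) and `ln 0 _ = 0` (`ln` of an append is iterated). -/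
def NlxStmt : Prop :=
  ∀ (F L : Type) [Field F] [LieRing L] [LieAlgebra F L] (r n : ℕ) (σ : L →ₗ[F] L) (ζ : F)
    (R : Set L) (H : ℕ → Set L), Aut r σ ζ → Cov (F := F) r n σ R H → ∀ (t : ℕ) (u : L),
    u ∈ dr (Submodule.span F R) (t + 1) → u ∈ W σ ζ 0 → ∀ cs : List L, r * n < cs.length →
    (∀ c ∈ cs, c ∈ dr (Submodule.span F R) t) → ln u cs ∈ dr (Submodule.span F R) (t + 2)

/-- **Row NLA** (eigenvectors; medium, uses IDL, EIG, MLT, COM, PGH, EON, NLX). PROOF. `A = span R`. Let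
`e c < r` be a weight of `c ∈ cs`. (i) If at least `n` elements of `cs` have `e c = 0`: `cs` is a
permutation of `l1 ++ l2`, `l1` of length `n` with weight `0`; `ln u l1 ∈ itr A (A ⊓ W 0) n = ⊥` (MLT (1)
or by induction; EON (2)), so `ln u (l1 ++ l2) = 0` and COM (2) finishes. (ii) Otherwise the sublist of the
elements with `e c ≠ 0` has more than `r r` elements (`a0 r n = n + r r + r n`); PGH with `m = r`: there is
`k ≠ 0`, `k < r`, and `cs` is a permutation of `l1 ++ l2` with `l1` of length `r + 1` and weight `k`. As `r` is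
prime there is `j < r` with `a + j k ≡ 0 (mod r)`. Put `u₀ = ln u (l1.take j)`: it is in `dr A (t + 1)` (COM
(1)) and in `W (a + j k) = W 0` (EIG (2), (1)). The remaining list `l1.drop j ++ l2` has length
`a0 r n - j > r n`. NLX and COM (2). -/
def NlaStmt : Prop :=
  ∀ (F L : Type) [Field F] [LieRing L] [LieAlgebra F L] (r n : ℕ) (σ : L →ₗ[F] L) (ζ : F)
    (R : Set L) (H : ℕ → Set L), r.Prime → Aut r σ ζ → Cov (F := F) r n σ R H →
    ∀ (t a : ℕ) (u : L), u ∈ dr (Submodule.span F R) (t + 1) → u ∈ W σ ζ a → ∀ cs : List L,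
    cs.length = a0 r n → (∀ c ∈ cs, ∃ e < r, c ∈ dr (Submodule.span F R) t ⊓ W σ ζ e) →
    ln u cs ∈ dr (Submodule.span F R) (t + 2)

/-- **Row NLB** (easy, uses IDL, EIG, MLT, EON, NLA). PROOF. By EIG (3) `dr A (t + 1)` is the span of its
eigenvectors and `dr A t` the span of its eigenvectors (weights `< r`; both are `σ`-stable by IDL and EON
(1)); MLT (1) and NLA. -/
def NlbStmt : Prop :=
  ∀ (F L : Type) [Field F] [LieRing L] [LieAlgebra F L] (r n : ℕ) (σ : L →ₗ[F] L) (ζ : F)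
    (R : Set L) (H : ℕ → Set L), r.Prime → Aut r σ ζ → Cov (F := F) r n σ R H → ∀ t : ℕ,
    itr (dr (Submodule.span F R) (t + 1)) (dr (Submodule.span F R) t) (a0 r n) ≤
      dr (Submodule.span F R) (t + 2)

/-! ## 4. Hall's theorem -/

/-- **Row HLS** (one step of Hall's theorem; medium, uses CAL, IDL). `M = dr A t`, `I = dr A (t + 1) =
br M M`, `X j = itr I I j`; `X 0 = I`, `X 1 = br I I = dr A (t + 2)`, `br (X j) A ≤ X j` (IDL (3)), so
`itr (X j) M p ≤ X j`.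
PROOF. (a) LEIBNIZ: `itr (br X Y) M q ≤ ⨆ p ∈ range (q + 1), br (itr X M p) (itr Y M (q - p))` (induction on
`q`, `br (br X Y) M ≤ br (br X M) Y ⊔ br X (br Y M)`). (b) Claim `itr (X j) M ((j + 1) a) ≤ X (j + 1)`: `j = 0`
is the hypothesis; step: `X (j + 1) = br (X j) I`, `q = (j + 2) a`; for the term `p` of (a): if
`p ≥ (j + 1) a` then `itr (X j) M p ≤ X (j + 1)` and `itr I M (q - p) ≤ I`, so the term is in `X (j + 2)`;
otherwise `q - p ≥ a`, so `itr I M (q - p) ≤ br I I`, and `br (X j) (br I I) ≤ br (br (X j) I) I = X (j + 2)`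
(Jacobi). (c) `itr M M (1 + ∑ j ∈ range c, (j + 1) a) = itr I M (∑ ..) ≤ X c` by induction on `c` (use
`itr (itr I M p) M q = itr I M (p + q)`). -/
def HlsStmt : Prop :=
  ∀ (F L : Type) [Field F] [LieRing L] [LieAlgebra F L] (A : Submodule F L) (a c t : ℕ),
    (∀ x ∈ A, ∀ y ∈ A, ⁅x, y⁆ ∈ A) → itr (dr A (t + 1)) (dr A t) a ≤ dr A (t + 2) →
    itr (dr A (t + 1)) (dr A (t + 1)) c = ⊥ →
    itr (dr A t) (dr A t) (1 + ∑ j ∈ Finset.range c, (j + 1) * a) = ⊥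

/-- **Row HAL** (Hall's theorem; easy, uses HLS). PROOF. `itr (dr A (s - i)) (dr A (s - i)) (hb a i) = ⊥` for
`i ≤ s` by induction on `i` (`i = 0`: `dr A s = ⊥`; step: HLS with `t = s - (i + 1)`, `c = hb a i`). -/
def HalStmt : Prop :=
  ∀ (F L : Type) [Field F] [LieRing L] [LieAlgebra F L] (A : Submodule F L) (a s : ℕ),
    (∀ x ∈ A, ∀ y ∈ A, ⁅x, y⁆ ∈ A) →
    (∀ t, itr (dr A (t + 1)) (dr A t) a ≤ dr A (t + 2)) → dr A s = ⊥ →
    itr A A (hb a s) = ⊥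

/-- **Row LIE** (the theorem on Lie algebras; easy, uses EON, KRK, NLB, HAL). PROOF. `A = span R`:
`dr A (fk n r 0) = ⊥` by EON (1), (2) and KRK; NLB, HAL. -/
def LieStmt : Prop :=
  ∀ (F L : Type) [Field F] [LieRing L] [LieAlgebra F L] (r n : ℕ) (σ : L →ₗ[F] L) (ζ : F)
    (R : Set L) (H : ℕ → Set L), r.Prime → Aut r σ ζ → Cov (F := F) r n σ R H →
    itr (Submodule.span F R) (Submodule.span F R) (hb (a0 r n) (fk n r 0)) = ⊥

end Pool.Agent.ISB
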