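import Pool.Agent.ISB.StmtsA

/-!
# Squad ISB, block B: from groups to Lie algebras

CONVENTIONS.  `P` is a group, `gm P j` the lower central series (`gm P 0 = P`), `F` a field of
characteristic 2.  `Dl P F` is the dual of the graded Lie ring of `P`: families `f` of homomorphisms
`f j : gm P j → F` which are `0` on `gm P (j + 1)`.  `IsD P F a x T` says that `T` is the operator of
`x ∈ gm P a`: `(T f) j g = f (j + a + 1) ⁅x, g⁆` for `g ∈ gm P j`.  `⁅x, g⁆ = x g x⁻¹ g⁻¹`.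

All rows: file `Pool/Agent/HelperNN_ISB/XXX.lean`, import `Pool.Agent.ISB.StmtsB`, namespace
`Pool.Agent.ISB.HNN`, `open scoped Classical commutatorElement`; for the rows with operators also the line
`attribute [local instance 100] LieRing.ofAssociativeRing LieAlgebra.ofAssociativeAlgebra`.
-/

set_option autoImplicit false

namespace Pool.Agent.ISB

open scoped Classical commutatorElement

attribute [local instance 100] LieRing.ofAssociativeRing LieAlgebra.ofAssociativeAlgebra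

/-- **Row GMC** (lower central series; medium). PROOF. (2), (3), (4): `Subgroup.lowerCentralSeries_antitone`,
characteristic. (1) induction on `b`: `⁅gm a, gm b⁆ ≤ gm (a + b + 1)`. `b = 0`: definition. Step:
`gm (b + 1) = ⁅gm b, ⊤⁆`; by the three subgroups lemma for normal subgroups (modulo the normal subgroup
`N = gm (a + b + 2)`: `Subgroup.commutator_commutator_eq_bot_of_rotate` in `P ⧸ N`, or the Hall-Witt
identity) `⁅⁅gm b, ⊤⁆, gm a⁆ ≤ N` follows from `⁅⁅⊤, gm a⁆, gm b⁆ = ⁅gm (a + 1), gm b⁆ ≤ gm (a + 1 + b + 1)`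
and `⁅⁅gm a, gm b⁆, ⊤⁆ ≤ ⁅gm (a + b + 1), ⊤⁆ = gm (a + b + 2)`; so do the induction on `b` for all `a`. -/
def GmcStmt : Prop :=
  ∀ (P : Type) [Group P],
    (∀ a b, ∀ x ∈ gm P a, ∀ y ∈ gm P b, ⁅x, y⁆ ∈ gm P (a + b + 1)) ∧
    (∀ a b, a ≤ b → gm P b ≤ gm P a) ∧
    (∀ a, ∀ x ∈ gm P a, ∀ g : P, g * x * g⁻¹ ∈ gm P a) ∧
    (∀ (κ : P ≃* P) (a : ℕ), ∀ x ∈ gm P a, κ x ∈ gm P a) ∧ gm P 0 = ⊤

/-- **Row GID** (identities; medium, uses GMC). PROOF. `f (1 * 1) = f 1 + f 1`. (2) `0 = f (x x⁻¹)`, char 2.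
(3) `⁅x, g h⁆ = ⁅x, g⁆ ⁅g, ⁅x, h⁆⁆ ⁅x, h⁆`, the middle factor is in `gm (j + (j + a + 1) + 1) ≤
gm (j + a + 2)`, where `f (j + a + 1)` is `0`. (4) `⁅x y, g⁆ = ⁅x, ⁅y, g⁆⁆ ⁅y, g⁆ ⁅x, g⁆`, the same. (5) The
factor `f m` (`m = j + a + b + 2`) is a homomorphism on `gm m` which is `0` on `gm (m + 1)`. By the Hall-Witt
identity `⁅⁅x, y⁆, g⁆` is congruent to `⁅x, ⁅y, g⁆⁆ ⁅y, ⁅x, g⁆⁆⁻¹` modulo `gm (m + 1)`. One way: let
`N = gm (m + 1)`; for `u ∈ gm m` conjugation does not change `f m u`. Exact identity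
`⁅⁅x, y⁆, g⁆ = x y x⁻¹ y⁻¹ g y x y⁻¹ x⁻¹ g⁻¹`. Use (3), (4) style computations: from
`x (y g y⁻¹) x⁻¹ = x ⁅y, g⁆ g x⁻¹ = ⁅x, ⁅y, g⁆⁆ ⁅y, g⁆ ⁅x, g⁆ g` and `y (x g x⁻¹) y⁻¹ = ⁅y, ⁅x, g⁆⁆ ⁅x, g⁆ ⁅y, g⁆ g`, with
`g' = (y x) g (y x)⁻¹`, `(x y) g (x y)⁻¹ = ⁅x, y⁆ g' ⁅x, y⁆⁻¹ = ⁅⁅x, y⁆, g'⁆ g'`; `⁅x, g⁆` and `⁅y, g⁆` commute
modulo `gm (2 j + a + b + 3) ≤ N`, so `⁅⁅x, y⁆, g'⁆` is congruent to `⁅x, ⁅y, g⁆⁆ ⁅y, ⁅x, g⁆⁆⁻¹`, and
`g' = ⁅y x, g⁆ g`, `⁅⁅x, y⁆, g'⁆ ≡ ⁅⁅x, y⁆, g⁆` modulo `N`. (6) `g x g⁻¹ = ⁅g, x⁆ x`. -/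
def GidStmt : Prop :=
  ∀ (P : Type) [Group P] (F : Type) [Field F] [CharP F 2] (f : ℕ → P → F), f ∈ Dl P F →
    (∀ j, f j 1 = 0) ∧ (∀ j, ∀ x ∈ gm P j, f j x⁻¹ = f j x) ∧
    (∀ a j, ∀ x ∈ gm P a, ∀ g ∈ gm P j, ∀ h ∈ gm P j,
      f (j + a + 1) ⁅x, g * h⁆ = f (j + a + 1) ⁅x, g⁆ + f (j + a + 1) ⁅x, h⁆) ∧
    (∀ a j, ∀ x ∈ gm P a, ∀ y ∈ gm P a, ∀ g ∈ gm P j,
      f (j + a + 1) ⁅x * y, g⁆ = f (j + a + 1) ⁅x, g⁆ + f (j + a + 1) ⁅y, g⁆) ∧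
    (∀ a b j, ∀ x ∈ gm P a, ∀ y ∈ gm P b, ∀ g ∈ gm P j,
      f (j + a + b + 2) ⁅⁅x, y⁆, g⁆ =
        f (j + a + b + 2) ⁅x, ⁅y, g⁆⁆ + f (j + a + b + 2) ⁅y, ⁅x, g⁆⁆) ∧
    ∀ j, ∀ x ∈ gm P j, ∀ g : P, f j (g * x * g⁻¹) = f j x

/-- **Row DOP** (the operators; medium, uses GMC, GID). PROOF. (1) `Dop P F a x` maps `Dl P F` to itself:
`(Dop a x f) j` is a homomorphism on `gm j` by GID (3), `0` on `gm (j + 1)` (`⁅x, g⁆ ∈ gm (j + a + 2)`), `0`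
outside; restrict it. (2) clear (extensionality). (3) GID (4). (4) GID (4) and (1), (2):
`f ⁅x⁻¹, g⁆ = - f ⁅x, g⁆`. (5) `⁅1, g⁆ = 1`. (6) `⁅x, g⁆ ∈ gm (j + a + 2)`. (7) `g x g⁻¹ = ⁅g, x⁆ x`, (3), (6) for
`⁅g, x⁆ ∈ gm (a + 1)` (its operator of degree `a` is `0`). (8) `⁅T, U⁆ f = T (U f) - U (T f)`;
`(T (U f)) j g = (U f) (j + a + 1) ⁅x, g⁆ = f (j + a + b + 2) ⁅y, ⁅x, g⁆⁆`, the same for `U T`; GID (5) and
characteristic 2. -/
def DopStmt : Prop :=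
  ∀ (P : Type) [Group P] (F : Type) [Field F] [CharP F 2],
    (∀ a, ∀ x ∈ gm P a, ∃ T, IsD P F a x T) ∧
    (∀ a x T U, IsD P F a x T → IsD P F a x U → T = U) ∧
    (∀ a x y T U, IsD P F a x T → IsD P F a y U → IsD P F a (x * y) (T + U)) ∧
    (∀ a x T, IsD P F a x T → IsD P F a x⁻¹ T) ∧
    (∀ a, IsD P F a 1 0) ∧
    (∀ a x T, IsD P F a x T → x ∈ gm P (a + 1) → T = 0) ∧
    (∀ a x T (g : P), IsD P F a x T → IsD P F a (g * x * g⁻¹) T) ∧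
    ∀ a b x y T U, IsD P F a x T → IsD P F b y U → IsD P F (a + b + 1) ⁅x, y⁆ ⁅T, U⁆

/-- **Row KAS** (automorphisms; medium, uses GMC). PROOF. (1) `(s f) j g = f j (κ⁻¹ g)`; `κ` and `κ⁻¹` preserve
the `gm P j` (GMC (4)). (2) `(cj s T f) j g = (T (s⁻¹ f)) j (κ⁻¹ g) = (s⁻¹ f) (j + a + 1) ⁅x, κ⁻¹ g⁆ =
f (j + a + 1) (κ ⁅x, κ⁻¹ g⁆) = f (j + a + 1) ⁅κ x, g⁆` (and `(s⁻¹ f) j g = f j (κ g)`). (3) conjugation is
multiplicative. (4) `(cj s) ^ r T = s ^ r T s ^ (-r)` and `s ^ r = 1`: `(s ^ r f) j g = f j (κ ^ (-r) g)`. -/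
def KasStmt : Prop :=
  ∀ (P : Type) [Group P] (F : Type) [Field F] [CharP F 2] (κ : MulAut P),
    (∃ s, IsK P F κ s) ∧ ∀ s, IsK P F κ s →
      (∀ a x T, IsD P F a x T → IsD P F a (κ x) (cj P F s T)) ∧
      (∀ T U, cj P F s ⁅T, U⁆ = ⁅cj P F s T, cj P F s U⁆) ∧
      ∀ r : ℕ, (∀ x, (κ ^ r) x = x) → ∀ T, ((cj P F s) ^ r) T = T

/-- **Row FAI** (the operators detect the class; medium, uses GMC, DOP). PROOF. Let `N = gm P (c + 1) ≠ ⊥`.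
`P` is nilpotent (`IsPGroup.isNilpotent`), so `M = gm P (c + 2) < N` (otherwise all later terms are `N`).
There is a subgroup `K` of index 2 in `N` which contains `M` (`N ⧸ M` is a finite 2-group which is not trivial:
`Sylow.exists_subgroup_card_pow_prime`, or a maximal subgroup of a 2-group has index 2). Let
`φ x = 0` for `x ∈ K`, `1` for `x ∈ N \ K`: a homomorphism `N → F` (index 2, characteristic 2), `0` on `M`. Let
`f ∈ Dl P F` be `φ` in degree `c + 1` (`0` outside of `N`) and `0` in the other degrees. For `x ∈ gm P c`,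
`g ∈ P` the operator `T` of `x` (DOP (1)) is `0`, so `0 = (T f) 0 g = f (c + 1) ⁅x, g⁆`: all commutators
`⁅x, g⁆` are in `K`, and these generate `N`: contradiction. -/
def FaiStmt : Prop :=
  ∀ (P : Type) [Group P] [Finite P] (F : Type) [Field F] [CharP F 2], IsPGroup 2 P → ∀ c,
    (∀ x ∈ gm P c, ∀ T, IsD P F c x T → T = 0) → gm P (c + 1) = ⊥

/-- **Row CVA** (the trees; medium, uses GMC, DOP, KAS). PROOF. `S k = κ ^ k (S)`. (1) DOP (8). (2) KAS. (3)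
`T` is the operator of `x ∈ gm a`; `x = g y' g⁻¹`, `y' = (κ ^ k) y ∈ S k`; `y' = g⁻¹ x g ∈ gm a` and `T` is the
operator of `y'` by DOP (7). (4) KAS and `κ (κ ^ k y) = κ ^ (k + 1) y`. (5) `κ ^ (k + r) = κ ^ k`. (6) Let the
`c ∈ cs` be operators of `x_c ∈ S k`: by DOP (8) `ln y cs` is the operator (of some degree) of the left
normed commutator `z` of `n + 1` elements of `S k`, which is in `(S k).lowerCentralSeries n` (induction),
the image of `S.lowerCentralSeries n = ⊥` (`Subgroup.map_lowerCentralSeries`): `z = 1`, so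
`ln y cs = 0` (DOP (5), (2)). -/
def CvaStmt : Prop :=
  ∀ (P : Type) [Group P] (F : Type) [Field F] [CharP F 2] (r n : ℕ) (κ : MulAut P)
    (S : Subgroup P) (s : Dl P F ≃ₗ[F] Dl P F), (∀ x, (κ ^ r) x = x) → IsK P F κ s →
    S.lowerCentralSeries n = ⊥ →
    (∀ x : P, ∃ k < r, ∃ g : P, ∃ y ∈ S, x = g * (κ ^ k) y * g⁻¹) →
    (∀ x ∈ Rs P F, ∀ y ∈ Rs P F, ⁅x, y⁆ ∈ Rs P F) ∧
    (∀ x ∈ Rs P F, cj P F s x ∈ Rs P F) ∧
    (∀ x ∈ Rs P F, ∃ k < r, x ∈ Hs P F (S.map (κ ^ k).toMonoidHom)) ∧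
    (∀ k, ∀ x ∈ Hs P F (S.map (κ ^ k).toMonoidHom),
      cj P F s x ∈ Hs P F (S.map (κ ^ (k + 1)).toMonoidHom)) ∧
    (∀ k, Hs P F (S.map (κ ^ (k + r)).toMonoidHom) = Hs P F (S.map (κ ^ k).toMonoidHom)) ∧
    ∀ k, ∀ y ∈ Hs P F (S.map (κ ^ k).toMonoidHom), ∀ cs : List (Module.End F (Dl P F)),
      cs.length = n → (∀ c ∈ cs, c ∈ Hs P F (S.map (κ ^ k).toMonoidHom)) → ln y cs = 0

/-- **Row CVB** (fixed points; medium, uses DOP, KAS). PROOF. `σ = cj s`, `σ ^ r = 1` (KAS (4)), `r` odd. For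
`z ∈ span R` put `N z = ∑ k ∈ range r, (σ ^ k) z`. If `σ z = z` then `N z = r z = z` (characteristic 2, `r`
odd). `N` is linear, so it suffices that `N T ∈ R` and `σ (N T) = N T` for `T ∈ R` (then `N` maps
`span R` to the span of the fixed elements of `R`): `σ (N T) = N T` by a shift of the index and
`σ ^ r = 1`; if `T` is the operator of `x ∈ gm a` then `(σ ^ k) T` is the operator of `(κ ^ k) x` (KAS (2)), and
the sum is the operator of degree `a` of the product of the list of these elements (DOP (3), (5)). -/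
def CvbStmt : Prop :=
  ∀ (P : Type) [Group P] (F : Type) [Field F] [CharP F 2] (r : ℕ) (κ : MulAut P)
    (s : Dl P F ≃ₗ[F] Dl P F), Odd r → (∀ x, (κ ^ r) x = x) → IsK P F κ s →
    ∀ z ∈ Submodule.span F (Rs P F), cj P F s z = z →
      z ∈ Submodule.span F {c | c ∈ Rs P F ∧ cj P F s c = c}

/-- **Row GRP** (the theorem on 2-groups; medium, uses LIE, GMC, DOP, KAS, FAI, CVA, CVB). PROOF. `F` = the
algebraic closure of `ZMod 2`; there is a primitive `r`-th root of unity `ζ` in `F` (`(r : F) ≠ 0`, e.g.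
`HasEnoughRootsOfUnity.exists_primitiveRoot`). `s` from KAS (1), `σ = cj s`, `Aut r σ ζ` by KAS (3), (4) and
`Cov` by CVA, CVB with `R = Rs P F`, `H k = Hs P F (κ ^ k (S))`. LIE: `itr (span R) (span R) c = ⊥` with
`c = hb (a0 r n) (fk n r 0)`. By induction on `j` every operator of degree `j` of an element `x ∈ gm P j` is in
`itr (span R) (span R) j`: `gm P (j + 1)` is generated by the commutators `⁅x, g⁆`, `x ∈ gm P j`,
`g ∈ P = gm P 0`, the operator of `⁅x, g⁆` is the bracket (DOP (8)), and products, inverses: DOP (3), (4). So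
the operators of degree `c` of the elements of `gm P c` are `0`, and FAI gives `gm P (c + 1) = ⊥`. -/
def GrpStmt : Prop :=
  ∀ r n : ℕ, r.Prime → Odd r → ∃ c : ℕ, ∀ (P : Type) [Group P] [Finite P], IsPGroup 2 P →
    ∀ (κ : MulAut P) (S : Subgroup P), (∀ x, (κ ^ r) x = x) → S.lowerCentralSeries n = ⊥ →
    (∀ x : P, ∃ k < r, ∃ g : P, ∃ y ∈ S, x = g * (κ ^ k) y * g⁻¹) → gm P c = ⊥

end Pool.Agent.ISB
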